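import Pool.Agent.N463.HW.Stm

/-!
# Project HW, part HL: the Hermite functions are in `L²`
-/

set_option autoImplicit false

open MeasureTheory

namespace Pool.Agent.N380.HW

open Pool.Agent.N463.HW

theorem deriv_gauss (n : ℕ) : ∃ p : Polynomial ℝ,
    iteratedDeriv n (fun s : ℝ => Real.exp (-2 * Real.pi * s ^ 2)) =
      fun s => p.eval s * Real.exp (-2 * Real.pi * s ^ 2) := by
  induction n with
  | zero =>
    refine ⟨1, ?_⟩
    rw [iteratedDeriv_zero]
    funext s
    rw [Polynomial.eval_one, one_mul]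
  | succ n ih =>
    obtain ⟨p, hp⟩ := ih
    refine ⟨Polynomial.derivative p - Polynomial.C (4 * Real.pi) * Polynomial.X * p, ?_⟩
    rw [iteratedDeriv_succ, hp]
    funext s
    have h1 : HasDerivAt (fun s : ℝ => Real.exp (-2 * Real.pi * s ^ 2))
        (Real.exp (-2 * Real.pi * s ^ 2) * (-2 * Real.pi * (2 * s))) s := by
      have h2 : HasDerivAt (fun s : ℝ => -2 * Real.pi * s ^ 2) (-2 * Real.pi * (2 * s)) s := by
        have h3 := (hasDerivAt_pow 2 s).const_mul (-2 * Real.pi)
        simpa using h3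
      exact h2.exp
    have h4 := (p.hasDerivAt s).mul h1
    have h5 := h4.deriv
    have h6 : (fun s : ℝ => p.eval s * Real.exp (-2 * Real.pi * s ^ 2)) =
        (fun s : ℝ => p.eval s) * (fun s : ℝ => Real.exp (-2 * Real.pi * s ^ 2)) := rfl
    rw [h6]
    refine Eq.trans h5 ?_
    simp only [Polynomial.eval_sub, Polynomial.eval_mul, Polynomial.eval_C, Polynomial.eval_X]
    ring

theorem integrable_poly_gauss (p : Polynomial ℝ) :
    Integrable (fun t : ℝ => p.eval t * Real.exp (-(2 * Real.pi) * t ^ 2)) := by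
  have h1 : (fun t : ℝ => p.eval t * Real.exp (-(2 * Real.pi) * t ^ 2)) =
      fun t : ℝ => ∑ i ∈ Finset.range (p.natDegree + 1),
        p.coeff i * (t ^ (i : ℝ) * Real.exp (-(2 * Real.pi) * t ^ 2)) := by
    funext t
    rw [Polynomial.eval_eq_sum_range, Finset.sum_mul]
    refine Finset.sum_congr rfl fun i _ => ?_
    rw [Real.rpow_natCast]
    ring
  rw [h1]
  refine integrable_finsetSum _ fun i _ => ?_
  refine Integrable.const_mul ?_ _
  exact integrable_rpow_mul_exp_neg_mul_sq (by positivity) (by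
    have : (0 : ℝ) ≤ (i : ℝ) := Nat.cast_nonneg i
    linarith)

theorem t_HL : S_HL := by
  intro n
  obtain ⟨p, hp⟩ := deriv_gauss n
  have hraw : ∀ t, hermRaw n t = p.eval t * Real.exp (-Real.pi * t ^ 2) := by
    intro t
    unfold hermRaw
    rw [hp]
    have h1 : Real.exp (-Real.pi * t ^ 2) =
        Real.exp (Real.pi * t ^ 2) * Real.exp (-2 * Real.pi * t ^ 2) := by
      rw [← Real.exp_add]
      congr 1
      ring
    rw [h1]
    ring
  set c : ℝ := Real.sqrt (∫ s, hermRaw n s ^ 2) with hc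
  have hherm : herm n = fun t => ((p.eval t * Real.exp (-Real.pi * t ^ 2) / c : ℝ) : ℂ) := by
    funext t
    unfold herm
    rw [hraw, ← hc]
  rw [hherm]
  have hcont : Continuous fun t : ℝ =>
      ((p.eval t * Real.exp (-Real.pi * t ^ 2) / c : ℝ) : ℂ) := by
    refine Complex.continuous_ofReal.comp ?_
    refine Continuous.div_const ?_ c
    refine p.continuous.mul ?_
    fun_prop
  rw [memLp_two_iff_integrable_sq_norm hcont.aestronglyMeasurable]
  have h2 := (integrable_poly_gauss (p ^ 2)).const_mul (1 / c ^ 2)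
  refine h2.congr (Filter.Eventually.of_forall fun t => ?_)
  simp only
  rw [Complex.norm_real, Real.norm_eq_abs, sq_abs, Polynomial.eval_pow, div_pow, mul_pow,
    ← Real.exp_nat_mul]
  have h3 : ((2 : ℕ) : ℝ) * (-Real.pi * t ^ 2) = -(2 * Real.pi) * t ^ 2 := by
    push_cast
    ring
  rw [h3]
  ring

end Pool.Agent.N380.HW
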